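import Mathlib
import Pool.Agent.Zk32.Tw0

/-!
Mean square along a Folner sequence of the characters for a Rajchman measure
-/

set_option autoImplicit false

open MeasureTheory Filter Topology Set
open scoped ENNReal ComplexConjugate

namespace Pool.Agent.Zk93.Tw

open Pool.Agent.Zk32

/-- the sets of a Folner sequence get large -/
theorem card_lim {F : ℕ → Finset (ℕ × ℕ)} (hF : Folner F) :
    Tendsto (fun k => ((F k).card : ℝ)⁻¹) atTop (𝓝 0) := by
  obtain ⟨h0, h1, -⟩ := hF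
  refine squeeze_zero (fun k => by positivity) (fun k => ?_) h1
  obtain ⟨a, ha, hmax⟩ := (F k).exists_max_image (fun n => n.1) (h0 k)
  have h : 1 ≤ ((F k).filter fun n => (n.1 + 1, n.2) ∉ F k).card := by
    refine Finset.one_le_card.2 ⟨a, Finset.mem_filter.2 ⟨ha, fun h => ?_⟩⟩
    have := hmax _ h
    simp at this
  rw [inv_eq_one_div]
  gcongr
  exact_mod_cast h

theorem s_inj {p q : ℕ} (hp : 2 ≤ p) (hq : 2 ≤ q) (hpq : Nat.Coprime p q) {a b : ℕ × ℕ}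
    (h : p ^ a.1 * q ^ a.2 = p ^ b.1 * q ^ b.2) : a = b := by
  have h1 : a.1 ≤ b.1 := by
    have h2 : p ^ a.1 ∣ p ^ b.1 * q ^ b.2 := h ▸ dvd_mul_right _ _
    have h3 : p ^ a.1 ∣ p ^ b.1 := (Nat.Coprime.pow a.1 b.2 hpq).dvd_of_dvd_mul_right h2
    exact (Nat.pow_dvd_pow_iff_le_right (by omega)).1 h3
  have h1' : b.1 ≤ a.1 := by
    have h2 : p ^ b.1 ∣ p ^ a.1 * q ^ a.2 := h ▸ dvd_mul_right _ _
    have h3 : p ^ b.1 ∣ p ^ a.1 := (Nat.Coprime.pow b.1 a.2 hpq).dvd_of_dvd_mul_right h2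
    exact (Nat.pow_dvd_pow_iff_le_right (by omega)).1 h3
  have h4 : a.1 = b.1 := le_antisymm h1 h1'
  rw [h4] at h
  have h5 : q ^ a.2 = q ^ b.2 := Nat.eq_of_mul_eq_mul_left (by positivity) h
  exact Prod.ext h4 (Nat.pow_right_injective hq h5)

theorem int_sq {p q : ℕ} (hp : 2 ≤ p) (hq : 2 ≤ q) (hpq : Nat.Coprime p q)
    {F : ℕ → Finset (ℕ × ℕ)} (hF : Folner F) {ω : Measure UnitAddCircle}
    [IsProbabilityMeasure ω] (hω : Raj ω) {k : ℤ} (hk : k ≠ 0) :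
    Tendsto (fun n => ∫ x : UnitAddCircle, ‖((F n).card : ℂ)⁻¹ *
      ∑ a ∈ F n, (fourier k ((p ^ a.1 * q ^ a.2) • x) : ℂ)‖ ^ 2 ∂ω) atTop (𝓝 0) := by
  set c : ℤ → ℂ := fun m => ∫ x : UnitAddCircle, (fourier m x : ℂ) ∂ω with hc
  have hint : ∀ m : ℤ, Integrable (fun x : UnitAddCircle => (fourier m x : ℂ)) ω := fun m =>
    (fourier m).continuous.integrable_of_hasCompactSupport (HasCompactSupport.of_compactSpace _)
  have hc1 : ∀ m, ‖c m‖ ≤ 1 := by
    intro m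
    calc ‖c m‖ ≤ ∫ x : UnitAddCircle, ‖(fourier m x : ℂ)‖ ∂ω := norm_integral_le_integral_norm _
      _ = ∫ _ : UnitAddCircle, (1 : ℝ) ∂ω := by
        refine integral_congr_ae (Eventually.of_forall fun x => ?_)
        simp only [fourier_apply]
        exact Circle.norm_coe _
      _ = 1 := by simp
  have hf : ∀ (s : ℕ) (x : UnitAddCircle), (fourier k (s • x) : ℂ) = fourier (k * s) x := by
    intro s x
    rw [fourier_apply, fourier_apply, ← natCast_zsmul, smul_smul]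
  have hw : ∀ (n : ℕ), ∫ x : UnitAddCircle,
      ‖∑ a ∈ F n, (fourier (k * (p ^ a.1 * q ^ a.2 : ℕ)) x : ℂ)‖ ^ 2 ∂ω ≤
      ∑ a ∈ F n, ∑ b ∈ F n,
        ‖c (k * (p ^ a.1 * q ^ a.2 : ℕ) - k * (p ^ b.1 * q ^ b.2 : ℕ))‖ := by
    intro n
    have h1 : ((∫ x : UnitAddCircle,
        ‖∑ a ∈ F n, (fourier (k * (p ^ a.1 * q ^ a.2 : ℕ)) x : ℂ)‖ ^ 2 ∂ω : ℝ) : ℂ) =
        ∑ a ∈ F n, ∑ b ∈ F n,
          c (k * (p ^ a.1 * q ^ a.2 : ℕ) - k * (p ^ b.1 * q ^ b.2 : ℕ)) := by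
      have h3 : ∀ x : UnitAddCircle,
          ((‖∑ a ∈ F n, (fourier (k * (p ^ a.1 * q ^ a.2 : ℕ)) x : ℂ)‖ ^ 2 : ℝ) : ℂ) =
          ∑ a ∈ F n, ∑ b ∈ F n,
            (fourier (k * (p ^ a.1 * q ^ a.2 : ℕ) - k * (p ^ b.1 * q ^ b.2 : ℕ)) x : ℂ) := by
        intro x
        rw [← Complex.normSq_eq_norm_sq, ← Complex.mul_conj, map_sum, Finset.sum_mul_sum]
        refine Finset.sum_congr rfl fun a _ => Finset.sum_congr rfl fun b _ => ?_
        rw [← fourier_neg, ← fourier_add, sub_eq_add_neg]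
      rw [← integral_complex_ofReal]
      refine (integral_congr_ae (Eventually.of_forall h3)).trans ?_
      rw [integral_finsetSum _ fun a _ => integrable_finsetSum _ fun b _ => hint _]
      refine Finset.sum_congr rfl fun a _ => ?_
      rw [integral_finsetSum _ fun b _ => hint _]
    have h2 := congrArg norm h1
    rw [Complex.norm_real, Real.norm_of_nonneg (integral_nonneg fun x => by positivity)] at h2
    rw [h2]
    exact (norm_sum_le _ _).trans (Finset.sum_le_sum fun a _ => norm_sum_le _ _)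
  have hcard := card_lim hF
  rw [Metric.tendsto_nhds]
  intro ε hε
  have hfin : {m : ℤ | ¬ dist (c m) 0 < ε / 2}.Finite :=
    (Metric.tendsto_nhds.1 hω (ε / 2) (by positivity))
  set M : Finset ℤ := hfin.toFinset with hM
  have hlim : Tendsto (fun n => (M.card : ℝ) * ((F n).card : ℝ)⁻¹) atTop (𝓝 0) := by
    simpa using hcard.const_mul (M.card : ℝ)
  filter_upwards [hlim.eventually (gt_mem_nhds (half_pos hε))] with n hn
  have hC : 0 < ((F n).card : ℝ) := by exact_mod_cast Finset.card_pos.2 (hF.1 n)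
  have hrow : ∀ a ∈ F n, ∑ b ∈ F n,
      ‖c (k * (p ^ a.1 * q ^ a.2 : ℕ) - k * (p ^ b.1 * q ^ b.2 : ℕ))‖ ≤
      (F n).card * (ε / 2) + M.card := by
    intro a _
    have h1 : ∀ b ∈ F n, ‖c (k * (p ^ a.1 * q ^ a.2 : ℕ) - k * (p ^ b.1 * q ^ b.2 : ℕ))‖ ≤
        ε / 2 + if (k * (p ^ a.1 * q ^ a.2 : ℕ) - k * (p ^ b.1 * q ^ b.2 : ℕ)) ∈ M
          then (1 : ℝ) else 0 := by
      intro b _
      split_ifs with hb
      · have := hc1 (k * (p ^ a.1 * q ^ a.2 : ℕ) - k * (p ^ b.1 * q ^ b.2 : ℕ))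
        linarith
      · have h4 : dist (c (k * (p ^ a.1 * q ^ a.2 : ℕ) - k * (p ^ b.1 * q ^ b.2 : ℕ))) 0 < ε / 2 := by
          by_contra h5
          exact hb (by rw [hM, Set.Finite.mem_toFinset]; exact h5)
        rw [dist_zero_right] at h4
        linarith
    refine (Finset.sum_le_sum h1).trans ?_
    rw [Finset.sum_add_distrib, Finset.sum_const, nsmul_eq_mul, Finset.sum_ite, Finset.sum_const,
      Finset.sum_const_zero, add_zero, nsmul_eq_mul, mul_one]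
    have h6 : ((F n).filter fun b =>
        (k * (p ^ a.1 * q ^ a.2 : ℕ) - k * (p ^ b.1 * q ^ b.2 : ℕ)) ∈ M).card ≤ M.card := by
      refine Finset.card_le_card_of_injOn
        (fun b : ℕ × ℕ => (k * (p ^ a.1 * q ^ a.2 : ℕ) - k * (p ^ b.1 * q ^ b.2 : ℕ))) ?_ ?_
      · intro b hb
        exact (Finset.mem_filter.1 hb).2
      · intro b _ b' _ hbb
        have h7 : k * ((p ^ b.1 * q ^ b.2 : ℕ) : ℤ) = k * ((p ^ b'.1 * q ^ b'.2 : ℕ) : ℤ) :=
          sub_right_injective hbb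
        have h8 := mul_left_cancel₀ hk h7
        exact s_inj hp hq hpq (by exact_mod_cast h8)
    have h6' : (((F n).filter fun b =>
        (k * (p ^ a.1 * q ^ a.2 : ℕ) - k * (p ^ b.1 * q ^ b.2 : ℕ)) ∈ M).card : ℝ) ≤ M.card := by
      exact_mod_cast h6
    linarith
  have htot : ∫ x : UnitAddCircle, ‖((F n).card : ℂ)⁻¹ *
      ∑ a ∈ F n, (fourier k ((p ^ a.1 * q ^ a.2) • x) : ℂ)‖ ^ 2 ∂ω ≤
      (((F n).card : ℝ)⁻¹) ^ 2 * ((F n).card * ((F n).card * (ε / 2) + M.card)) := by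
    have h1 : ∀ x : UnitAddCircle, ‖((F n).card : ℂ)⁻¹ *
        ∑ a ∈ F n, (fourier k ((p ^ a.1 * q ^ a.2) • x) : ℂ)‖ ^ 2 =
        (((F n).card : ℝ)⁻¹) ^ 2 *
          ‖∑ a ∈ F n, (fourier (k * (p ^ a.1 * q ^ a.2 : ℕ)) x : ℂ)‖ ^ 2 := by
      intro x
      have h9 : ∑ a ∈ F n, (fourier k ((p ^ a.1 * q ^ a.2) • x) : ℂ) =
          ∑ a ∈ F n, (fourier (k * (p ^ a.1 * q ^ a.2 : ℕ)) x : ℂ) :=
        Finset.sum_congr rfl fun a _ => hf _ _
      rw [norm_mul, mul_pow, norm_inv, Complex.norm_natCast, h9]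
    rw [integral_congr_ae (Eventually.of_forall h1), integral_const_mul]
    refine mul_le_mul_of_nonneg_left ?_ (by positivity)
    refine (hw n).trans ((Finset.sum_le_sum hrow).trans ?_)
    rw [Finset.sum_const, nsmul_eq_mul]
  have h10 : (((F n).card : ℝ)⁻¹) ^ 2 * ((F n).card * ((F n).card * (ε / 2) + M.card)) =
      ε / 2 + M.card * ((F n).card : ℝ)⁻¹ := by
    field_simp
  have h11 : 0 ≤ ∫ x : UnitAddCircle, ‖((F n).card : ℂ)⁻¹ *
      ∑ a ∈ F n, (fourier k ((p ^ a.1 * q ^ a.2) • x) : ℂ)‖ ^ 2 ∂ω :=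
    integral_nonneg fun x => by positivity
  rw [dist_zero_right, Real.norm_of_nonneg h11]
  linarith

end Pool.Agent.Zk93.Tw
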